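import Mathlib

set_option autoImplicit false

namespace Pool.Agent.H632R3.BNL

/-- choice of the parameters -/
theorem numeric (ε : ℝ) (hε : 0 < ε) : ∃ N₀ : ℕ, ∀ N ≥ N₀, ∀ m : ℕ,
    (∀ q h k p : ℕ, 2 ≤ k → N = q * (4 * k + h) + h * (2 * k + h + 2) + (3 * k + h + 1) + p →
      (k - 1) ^ (q * (q * (h * k))) ≤ 2 ^ (3 * m)) →
    (1 / 96 - ε) * (N : ℝ) ^ 2 * Real.logb 2 N ≤ m := by
  rcases le_or_gt (1/96) ε with hbig | hsmall
  · refine ⟨1, fun N hN m _ => ?_⟩
    have h1 : 0 ≤ Real.logb 2 N := Real.logb_nonneg (by norm_num) (by exact_mod_cast hN)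
    have h2 : (1/96 - ε) * (N:ℝ)^2 ≤ 0 :=
      mul_nonpos_of_nonpos_of_nonneg (by linarith) (by positivity)
    have h3 : (1/96 - ε) * (N:ℝ)^2 * Real.logb 2 N ≤ 0 := mul_nonpos_of_nonpos_of_nonneg h2 h1
    exact h3.trans (Nat.cast_nonneg m)
  · obtain ⟨a, ha⟩ := exists_nat_ge (max 7 (2 / ε))
    have ha7 : (7 : ℝ) ≤ a := (le_max_left _ _).trans ha
    have ha7' : 7 ≤ a := by exact_mod_cast ha7
    have haε : 2 / ε ≤ a := (le_max_right _ _).trans ha
    have haε' : 2 ≤ a * ε := by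
      rw [div_le_iff₀ hε] at haε; exact haε
    have ha0 : (0 : ℝ) < a := by linarith
    set δ : ℝ := 48 * ε with hδ
    have hδ0 : 0 < δ := by positivity
    set D : ℝ := 2 * Real.logb 2 (2 * a) with hD
    refine ⟨max ((4 * a + 2) ^ 2) ⌈(2 : ℝ) ^ (D / δ)⌉₊, fun N hN m hyp => ?_⟩
    have hN1 : (4 * a + 2) ^ 2 ≤ N := (le_max_left _ _).trans hN
    have hN2 : ⌈(2 : ℝ) ^ (D / δ)⌉₊ ≤ N := (le_max_right _ _).trans hN
    have hNpos : 0 < N := lt_of_lt_of_le (by positivity) hN1
    have hNr : (0 : ℝ) < N := by exact_mod_cast hNpos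
    set L : ℝ := Real.logb 2 N with hL
    have hLD : D / δ ≤ L := by
      rw [hL, Real.le_logb_iff_rpow_le (by norm_num) hNr]
      exact Nat.ceil_le.1 hN2
    have hLD' : D ≤ δ * L := by
      rw [div_le_iff₀ hδ0] at hLD; linarith
    have hD0 : 0 ≤ D := by
      have : 0 ≤ Real.logb 2 (2 * a) := Real.logb_nonneg (by norm_num) (by linarith)
      linarith
    have hL0 : 0 ≤ L := by
      have : 0 ≤ D / δ := by positivity
      linarith
    set r := Nat.sqrt N with hr
    have hr1 : 4 * a + 2 ≤ r := by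
      rw [hr, Nat.le_sqrt']; exact hN1
    have hr2 : r * r ≤ N := Nat.sqrt_le N
    have hr3 : N < (r + 1) * (r + 1) := Nat.lt_succ_sqrt N
    set k := r / a with hk
    have hk1 : k * a ≤ r := Nat.div_mul_le_self r a
    have hk2 : r < k * a + a := by
      have := Nat.lt_div_mul_add (a := r) (b := a) (by omega)
      exact this
    have hk4 : 4 ≤ k := by
      rw [hk, Nat.le_div_iff_mul_le (by omega)]; omega
    have hka : (k * a) * (k * a) ≤ N := (Nat.mul_le_mul hk1 hk1).trans hr2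
    have h49 : 49 * (k * k) ≤ N := by
      have : 7 * 7 ≤ a * a := Nat.mul_le_mul ha7' ha7'
      have h2 := Nat.mul_le_mul_left (k * k) this
      have : (k * k) * (a * a) = (k * a) * (k * a) := by ring
      omega
    have hkk : 4 * k ≤ k * k := Nat.mul_le_mul_right k hk4
    set T := 24 * (k * k) + 15 * k + 1 with hT
    have hTN : T ≤ N := by
      have : 1 ≤ k * k := by nlinarith
      omega
    set q := (N - T) / (8 * k) with hq
    set p := (N - T) % (8 * k) with hp
    have hqp : 8 * k * q + p = N - T := Nat.div_add_mod (N - T) (8 * k)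
    have hp8 : p < 8 * k := Nat.mod_lt _ (by omega)
    have hNeq : N = q * (4 * k + 4 * k) + 4 * k * (2 * k + 4 * k + 2) + (3 * k + 4 * k + 1) + p := by
      have h1 : q * (4 * k + 4 * k) = 8 * k * q := by ring
      have h2 : 4 * k * (2 * k + 4 * k + 2) = 24 * (k * k) + 8 * k := by ring
      rw [h1, h2]
      omega
    have hineq := hyp q (4 * k) k p (by omega) hNeq
    -- the count
    have h8 : N ≤ 8 * k * q + 48 * (k * k) := by
      have : 1 ≤ k * k := by nlinarith
      omega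
    have h8r : (N : ℝ) ≤ 8 * k * q + 48 * (k * k) := by exact_mod_cast h8
    have hkar : ((k : ℝ) * a) * (k * a) ≤ N := by exact_mod_cast hka
    -- logs
    have hlog1 : ((q * (q * (4 * k * k)) : ℕ) : ℝ) * Real.logb 2 ((k - 1 : ℕ) : ℝ) ≤ 3 * m := by
      have h1 : (((k - 1 : ℕ) : ℝ)) ^ (q * (q * (4 * k * k))) ≤ (2 : ℝ) ^ (3 * m) := by
        exact_mod_cast hineq
      have hkpos : (0 : ℝ) < ((k - 1 : ℕ) : ℝ) := by
        have : 0 < k - 1 := by omega
        exact_mod_cast this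
      have h2 := Real.logb_le_logb_of_le (b := 2) (by norm_num) (by positivity) h1
      rw [Real.logb_pow, Real.logb_pow, Real.logb_self_eq_one (by norm_num), mul_one] at h2
      push_cast at h2 ⊢
      exact h2
    have hlog2 : (L - D) / 2 ≤ Real.logb 2 ((k - 1 : ℕ) : ℝ) := by
      have h1 : N ≤ (2 * a * (k - 1)) ^ 2 := by
        have h2 : r + 1 ≤ 2 * a * (k - 1) := by
          obtain ⟨k', hk'⟩ : ∃ k', k = k' + 1 := ⟨k - 1, by omega⟩
          rw [hk'] at hk2 ⊢
          have e1 : (k' + 1) * a = k' * a + a := by ring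
          have e2 : 2 * a * (k' + 1 - 1) = 2 * (k' * a) := by
            rw [Nat.add_sub_cancel]; ring
          rw [e2]
          rw [e1] at hk2
          omega
        have h3 := Nat.pow_le_pow_left h2 2
        have h4 : (r + 1) ^ 2 = (r + 1) * (r + 1) := by ring
        omega
      have hkpos : (0 : ℝ) < ((k - 1 : ℕ) : ℝ) := by
        have : 0 < k - 1 := by omega
        exact_mod_cast this
      have h1r : (N : ℝ) ≤ (2 * a * ((k - 1 : ℕ) : ℝ)) ^ 2 := by exact_mod_cast h1
      have h2 := Real.logb_le_logb_of_le (b := 2) (by norm_num) hNr h1r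
      rw [Real.logb_pow, Real.logb_mul (by positivity) (by positivity)] at h2
      push_cast at h2
      linarith
    have hE : ((q * (q * (4 * k * k)) : ℕ) : ℝ) = (8 * k * q) ^ 2 / 16 := by
      push_cast; ring
    rw [hE] at hlog1
    have hLD2 : (1 - δ) * L ≤ L - D := by linarith
    have hδ1 : δ < 1 / 2 := by rw [hδ]; linarith
    have hLD0 : 0 ≤ L - D := by
      have : 0 ≤ (1 - δ) * L := mul_nonneg (by linarith) hL0
      linarith
    -- x = 1 - 48 / a ^ 2
    have hk2a : (k : ℝ) * k ≤ N / (a * a) := by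
      rw [le_div_iff₀ (by positivity)]
      calc (k : ℝ) * k * (a * a) = (k * a) * (k * a) := by ring
        _ ≤ N := hkar
    have h48 : 48 / ((a : ℝ) * a) ≤ δ / 2 := by
      rw [div_le_iff₀ (by positivity), hδ]
      have : 1 ≤ (a : ℝ) := by linarith
      nlinarith
    have h8' : (1 - δ / 2) * N ≤ 8 * k * q := by
      have h1 : 48 * ((k : ℝ) * k) ≤ (δ / 2) * N := by
        calc 48 * ((k : ℝ) * k) ≤ 48 * (N / (a * a)) := by linarith
          _ = (48 / (a * a)) * N := by ring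
          _ ≤ (δ / 2) * N := mul_le_mul_of_nonneg_right h48 hNr.le
      linarith
    have hsq : ((1 - δ / 2) * N) ^ 2 ≤ (8 * k * q : ℝ) ^ 2 := by
      apply pow_le_pow_left₀ _ h8'
      exact mul_nonneg (by linarith) hNr.le
    have hmain : ((1 - δ / 2) * N) ^ 2 / 16 * ((L - D) / 2) ≤ 3 * m := by
      calc ((1 - δ / 2) * N) ^ 2 / 16 * ((L - D) / 2)
          ≤ (8 * k * q : ℝ) ^ 2 / 16 * ((L - D) / 2) := by
            apply mul_le_mul_of_nonneg_right _ (by linarith)
            linarith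
        _ ≤ (8 * k * q : ℝ) ^ 2 / 16 * Real.logb 2 ((k - 1 : ℕ) : ℝ) := by
            apply mul_le_mul_of_nonneg_left hlog2 (by positivity)
        _ ≤ 3 * m := hlog1
    have hfin : (1 - 2 * δ) * ((N : ℝ) ^ 2 * L) ≤ ((1 - δ / 2) * N) ^ 2 * (L - D) := by
      have h1 : (1 - δ) * (N : ℝ) ^ 2 ≤ ((1 - δ / 2) * N) ^ 2 := by
        have : ((1 - δ / 2) * N) ^ 2 = (1 - δ) * (N : ℝ) ^ 2 + (δ / 2 * N) ^ 2 := by ring
        rw [this]; nlinarith [sq_nonneg (δ / 2 * (N : ℝ))]
      calc (1 - 2 * δ) * ((N : ℝ) ^ 2 * L) ≤ ((1 - δ) * (N : ℝ) ^ 2) * ((1 - δ) * L) := by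
            have : 0 ≤ δ ^ 2 * ((N : ℝ) ^ 2 * L) := by positivity
            nlinarith
        _ ≤ ((1 - δ / 2) * N) ^ 2 * (L - D) := by
            apply mul_le_mul h1 hLD2
            · exact mul_nonneg (by linarith) hL0
            · positivity
    have : (1 / 96 - ε) * (N : ℝ) ^ 2 * L = (1 - 2 * δ) * ((N : ℝ) ^ 2 * L) / 96 := by
      rw [hδ]; ring
    rw [this]
    linarith

end Pool.Agent.H632R3.BNL
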