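import Pool.Agent.H632R2.Border3
import Pool.Agent.H546R2.SM.B8
import Pool.Agent.H632R3.BNL.Numeric

set_option autoImplicit false
set_option linter.unusedSectionVars false

open Module MvPolynomial Finset

namespace Pool.Agent.H632R3.BNL

open Pool.Agent.H546R2.SL Pool.Agent.H546R2.SM Pool.Agent.H632R2.Border

/-- the main inequality, for limits of computed polynomials -/
theorem main_ineq_border (K : Type*) [Field K] [IsAlgClosed K] [CharZero K]
    {F : Type*} [Field F] (O : ValuationSubring F) (φ : O →+* K) (ψ : K →+* O)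
    (hψ : ∀ c, φ (ψ c) = c) {q h k p : ℕ}
    (hk : 2 ≤ k) (N : ℕ)
    (hN : N = q * (4 * k + h) + h * (2 * k + h + 2) + (3 * k + h + 1) + p)
    (s : ℕ) (M : Finset ℕ) (g : ℕ → MvPolynomial (Fin N × Fin N) F) (hg : NSLP s M g)
    (G : MvPolynomial (Fin N × Fin N) O) (hG : ∃ i < s, map O.subtype G = g i)
    (hf : map φ G = perN K N) :
    (k - 1) ^ (q * (q * (h * k))) ≤ 2 ^ (3 * M.card) := by
  classical
  obtain ⟨zC, hzC⟩ := exists_zeta K (2 * k + h) (by omega)
  obtain ⟨zU, hzU⟩ := exists_zeta K (k + 1) (by omega)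
  obtain ⟨zm, hzm⟩ := exists_zeta K (2 * k) (by omega)
  obtain ⟨zV, hzV⟩ := exists_zeta K (k + h + 1) (by omega)
  obtain ⟨t, ht, hzero⟩ := exists_t (q := q) (h := h) (k := k) (C₀ := 2 * k + h) K hk rfl
  set FMA := FM K q h k p t zC zU zm zV (Aent K q h k t) with hFMA
  let er : Fin N ≃ FR q h (2 * k) (2 * k + h) k (k + h) p :=
    Fintype.equivOfCardEq (by rw [card_FR, Fintype.card_fin, hN]; ring)
  let ec : Fin N ≃ FC q h (2 * k) (2 * k + h) k (k + h) p :=
    Fintype.equivOfCardEq (by rw [card_FC, Fintype.card_fin, hN]; ring)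
  have hCmem : ∀ x : K, C x ∈ restrictTotalDegree (Idx q h k) K 1 := by
    intro x
    rw [mem_restrictTotalDegree, totalDegree_C]
    exact Nat.zero_le _
  have hdeg : ∀ i j, FMA i j ∈ restrictTotalDegree (Idx q h k) K 1 := by
    intro i j
    rw [hFMA]
    unfold FM
    apply fin_mem (W := (restrictTotalDegree (Idx q h k) K 1 : Set (MvPolynomial (Idx q h k) K)))
    · exact Submodule.zero_mem _
    · exact hCmem 1
    · exact fun _ => hCmem _
    · exact fun _ => hCmem _
    · exact fun _ => hCmem _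
    · exact fun _ => hCmem _
    · intro b b' r c
      have := ((zent_homog (K := K) (h := h) b b' r c).C_mul (t ^ ex c r 0)).totalDegree_le
      exact (mem_restrictTotalDegree _ _ _).mpr this
    · exact fun _ _ => hCmem _
    · exact fun _ _ => hCmem _
    · exact fun _ => hCmem _
  obtain ⟨W, hW0, hWgood, hWd⟩ := gradient_good_border (O := O) (φ := φ) (j := ψ) hψ
    (fun x : Fin N × Fin N => FMA (er x.1) (ec x.2))
    (fun v => hdeg _ _) s M g hg G (perN K N) hG hf
  have hyW : ∀ v, Yf K q h k (2 * k + h) t v ∈ W := by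
    rintro ⟨b₀, b₀', r₀, c₀⟩
    have h1 := hWd (er.symm (posR b₀' c₀), ec.symm (posC b₀ r₀))
    rw [aeval_pderiv, Equiv.apply_symm_apply, Equiv.apply_symm_apply] at h1
    have h2 := per_add FMA (FM K q h k p t zC zU zm zV (fun b b' r c => Aent K q h k t b b' r c +
        if b' = b₀' ∧ c = c₀ then (if b = b₀ ∧ r = r₀ then 1 else 0) else 0))
      (posR b₀' c₀) (posC b₀ r₀) (fun i j => fin_add _ _ _ _ _ _ _ _ _ b₀ b₀' r₀ c₀
        (fun _ _ _ _ => rfl) i j)
    rw [← h2] at h1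
    have h3 := W.smul_mem (t ^ ex c₀ r₀ 0) h1
    rw [smul_eq_C_mul, hFMA, FM_diff ht (by omega) zC zU zm zV hzC hzU hzm hzV b₀ b₀' r₀ c₀,
      ← smul_eq_C_mul] at h3
    have hne := cst_ne_zero (K := K) q h (2 * k) (2 * k + h) k (k + h) p
    have h4 := W.smul_mem (cst K q h (2 * k) (2 * k + h) k (k + h) p (-1) (-1) (-1) (-1))⁻¹ h3
    rwa [smul_smul, inv_mul_cancel₀ hne, one_smul] at h4
  have hcardι : Fintype.card (Idx q h k) = q * (q * (h * k)) := by
    simp [Idx, Fintype.card_prod]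
  rw [← hcardι]
  exact degree_bound (fun v => Yf K q h k (2 * k + h) t v) (k - 1) (by omega)
    (fun v => Yf_homog t v) hzero (3 * M.card) W hW0 hWgood hyW

/-- the main inequality for the approximative complexity over any field of characteristic zero -/
theorem border_ineq (k : Type*) [Field k] [CharZero k] {q h κ p : ℕ}
    (hκ : 2 ≤ κ) (N : ℕ)
    (hN : N = q * (4 * κ + h) + h * (2 * κ + h + 2) + (3 * κ + h + 1) + p)
    (s : ℕ) (M : Finset ℕ)
    (g : ℕ → MvPolynomial (Fin N × Fin N) (RatFunc k)) (F : MvPolynomial (Fin N × Fin N) (RatFunc k))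
    (hg : NSLP s M g) (hF : ∃ i < s, F = g i)
    (hv : ∀ d, (coeff d F).denom.eval 0 ≠ 0 ∧
        (coeff d F).eval (RingHom.id k) 0 = coeff d (perN k N)) :
    (κ - 1) ^ (q * (q * (h * κ))) ≤ 2 ^ (3 * M.card) := by
  set Ω := AlgebraicClosure k with hΩ
  set ρ := rmap (algebraMap k Ω) with hρ
  have hg' := hg.map ρ
  -- the lift
  have hcoef : ∀ d, coeff d (MvPolynomial.map ρ F) ∈ O0 Ω := by
    intro d
    rw [coeff_map]
    exact rmap_mem _ (hv d).1
  have hrange : MvPolynomial.map ρ F ∈ (MvPolynomial.map (σ := Fin N × Fin N) (O0 Ω).subtype).range := by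
    rw [RingHom.mem_range]
    change _ ∈ Set.range _
    rw [mem_range_map_iff_coeffs_subset]
    intro x hx
    rw [Finset.mem_coe, mem_coeffs_iff] at hx
    obtain ⟨d, _, rfl⟩ := hx
    exact ⟨⟨_, hcoef d⟩, rfl⟩
  obtain ⟨G, hG⟩ := hrange
  have hφ : MvPolynomial.map (φ0 Ω) G = perN Ω N := by
    rw [← map_perN (algebraMap k Ω) N]
    ext d
    rw [coeff_map, coeff_map, ← (hv d).2, ← rmap_eval (algebraMap k Ω) (hv d).1]
    congr 1
    apply Subtype.ext
    have h1 := congrArg (coeff d) hG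
    rw [coeff_map, coeff_map] at h1
    exact h1
  have hf' : ∃ i < s, MvPolynomial.map (O0 Ω).subtype G =
      (fun i => MvPolynomial.map ρ (g i)) i := by
    obtain ⟨i, hi, hfi⟩ := hF
    refine ⟨i, hi, ?_⟩
    beta_reduce
    rw [← hfi]
    exact hG
  exact main_ineq_border Ω (O0 Ω) (φ0 Ω) (ψ0 Ω) (φψ Ω) hκ N hN s M _ hg' G hf' hφ

/-- `(1/96 - o(1)) N² log₂ N` multiplications are needed to approximate the permanent -/
theorem border_main (ε : ℝ) (hε : 0 < ε) : ∃ N₀ : ℕ, ∀ (k : Type*) [Field k] [CharZero k],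
    ∀ N ≥ N₀, ∀ (s : ℕ) (M : Finset ℕ)
      (g : ℕ → MvPolynomial (Fin N × Fin N) (RatFunc k)) (F : MvPolynomial (Fin N × Fin N) (RatFunc k)),
      NSLP s M g → (∃ i < s, F = g i) →
      (∀ d, (coeff d F).denom.eval 0 ≠ 0 ∧
        (coeff d F).eval (RingHom.id k) 0 = coeff d (perN k N)) →
      (1 / 96 - ε) * (N : ℝ) ^ 2 * Real.logb 2 N ≤ M.card := by
  obtain ⟨N₀, h⟩ := numeric ε hε
  refine ⟨N₀, fun k _ _ N hN s M g F hg hF hv => h N hN M.card ?_⟩
  intro q h κ p hκ hNe
  exact border_ineq k hκ N hNe s M g F hg hF hv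

end Pool.Agent.H632R3.BNL
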